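import Mathlib
import Pool.Agent.Q102.BraidList

/-!
MP_31c3fe_co, Q1: for every Coxeter system of type `Λ` (simply laced, triangle free) and every
reduced word whose braid class has at least two elements, the geodetic number of the braid graph
is `2`; indeed there are `u, v` with `I(u,v)` the whole braid class.
-/

namespace Pool.Agent.Results.MP_31c3fe_co.GeodeticNumberTwo

open Pool.Agent.Q102.Braid

/-- vertices lying on at least one shortest `u`-`v` path -/
def interval {V : Type*} (G : SimpleGraph V) (u v : V) : Set V :=
  {x | ∃ p : G.Walk u v, p.length = G.dist u v ∧ x ∈ p.support}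

/-- the geodetic closure of a set of vertices -/
def geodeticClosure {V : Type*} (G : SimpleGraph V) (X : Set V) : Set V :=
  {x | ∃ u ∈ X, ∃ v ∈ X, x ∈ interval G u v}

/-- the geodetic number -/
noncomputable def geodeticNumber {V : Type*} (G : SimpleGraph V) : ℕ :=
  sInf {n | ∃ X : Set V, X.Finite ∧ X.ncard = n ∧ geodeticClosure G X = Set.univ}

theorem interval_self {V : Type*} (G : SimpleGraph V) (u : V) : interval G u u = {u} := by
  ext x
  constructor
  · rintro ⟨p, hp, hx⟩
    rw [SimpleGraph.dist_self] at hp
    cases p with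
    | nil => simpa using hx
    | cons h p => simp at hp
  · rintro rfl
    exact ⟨SimpleGraph.Walk.nil, by simp, by simp⟩

theorem result {B W : Type*} [Group W] (M : CoxeterMatrix B) (cs : CoxeterSystem M W)
    (hΛ : TypeLambda M) (α : List B) (hα : cs.IsReduced α)
    (hnt : (braidClass M α).Nontrivial) :
    (∃ u v : braidClass M α, interval (braidGraph M α) u v = Set.univ) ∧
      geodeticNumber (braidGraph M α) = 2 := by
  obtain ⟨u, v, huv⟩ := antipodal cs hΛ hα
  have hnt' : Nontrivial (braidClass M α) := Set.nontrivial_coe_sort.mpr hnt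
  have hI : interval (braidGraph M α) u v = Set.univ := by
    rw [Set.eq_univ_iff_forall]
    intro w
    obtain ⟨r1, r2, hs⟩ := huv w
    obtain ⟨p, hp⟩ := SimpleGraph.Reachable.exists_walk_length_eq_dist r1.symm
    obtain ⟨q, hq⟩ := SimpleGraph.Reachable.exists_walk_length_eq_dist r2
    refine ⟨p.append q, ?_, ?_⟩
    · rw [SimpleGraph.Walk.length_append, hp, hq, hs]
      have := (huv v).2.2
      rw [SimpleGraph.dist_self, add_zero] at this
      exact this.symm
    · rw [SimpleGraph.Walk.mem_support_append_iff]
      exact Or.inl p.end_mem_support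
  refine ⟨⟨u, v, hI⟩, ?_⟩
  have hne : u ≠ v := by
    rintro rfl
    rw [interval_self] at hI
    obtain ⟨a, b, hab⟩ := hnt'
    have ha : a ∈ ({u} : Set (braidClass M α)) := hI ▸ Set.mem_univ a
    have hb : b ∈ ({u} : Set (braidClass M α)) := hI ▸ Set.mem_univ b
    exact hab (ha.trans hb.symm)
  apply le_antisymm
  · refine Nat.sInf_le ⟨{u, v}, by simp, Set.ncard_pair hne, ?_⟩
    rw [Set.eq_univ_iff_forall]
    intro w
    exact ⟨u, by simp, v, by simp, hI ▸ Set.mem_univ w⟩
  · refine le_csInf ⟨2, {u, v}, by simp, Set.ncard_pair hne, ?_⟩ ?_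
    · rw [Set.eq_univ_iff_forall]
      intro w
      exact ⟨u, by simp, v, by simp, hI ▸ Set.mem_univ w⟩
    · rintro n ⟨X, hXf, hXn, hX⟩
      by_contra hlt
      push Not at hlt
      obtain ⟨a, b, hab⟩ := hnt'
      have key : ∀ x, x ∈ X := by
        intro x
        have hx : x ∈ geodeticClosure (braidGraph M α) X := hX ▸ Set.mem_univ x
        obtain ⟨s, hs, t, ht, hst⟩ := hx
        have hle : X.ncard ≤ 1 := by omega
        have := (Set.ncard_le_one hXf).mp hle s hs t ht
        subst this
        rw [interval_self] at hst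
        rw [hst]; exact hs
      have hle : X.ncard ≤ 1 := by omega
      exact hab ((Set.ncard_le_one hXf).mp hle a (key a) b (key b))

end Pool.Agent.Results.MP_31c3fe_co.GeodeticNumberTwo
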